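import Pool.Agent.WIR.StmtsE

/-! Row AEC of the table wir (helper33). -/

namespace Pool.Agent.WIR.H33

open scoped BigOperators ENNReal Topology
open Filter MeasureTheory

theorem ae_zero (f : ℕ → ℤ_[3] → ℝ≥0∞) (hf : ∀ n, Measurable (f n)) (C : ℝ) (n0 : ℕ)
    (h : ∀ n, n0 ≤ n → ∫⁻ x, f n x ∂μ3 ≤ ENNReal.ofReal (C / ((n : ℝ) + 1) ^ 2)) :
    ∀ᵐ x ∂μ3, Tendsto (fun n => f n x) atTop (𝓝 0) := by
  have hs : Summable (fun n : ℕ => (max C 0) / ((n : ℝ) + 1) ^ 2) := by
    have h1 : Summable (fun n : ℕ => 1 / ((n : ℝ)) ^ 2) :=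
      Real.summable_one_div_nat_pow.mpr (by norm_num)
    have h2 := (summable_nat_add_iff 1).mpr h1
    have h3 := h2.mul_left (max C 0)
    refine h3.congr ?_
    intro n
    push_cast
    ring
  have hpos : ∀ n : ℕ, 0 ≤ (max C 0) / ((n : ℝ) + 1) ^ 2 := by
    intro n
    positivity
  have hfin : ∑' n : ℕ, ENNReal.ofReal ((max C 0) / ((n : ℝ) + 1) ^ 2) ≠ ⊤ := by
    rw [← ENNReal.ofReal_tsum_of_nonneg hpos hs]
    exact ENNReal.ofReal_ne_top
  have hint : ∫⁻ x, ∑' n, f (n + n0) x ∂μ3 ≠ ⊤ := by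
    rw [lintegral_tsum (fun n => (hf (n + n0)).aemeasurable)]
    refine ne_top_of_le_ne_top hfin ?_
    refine ENNReal.tsum_le_tsum ?_
    intro n
    refine (h (n + n0) (by omega)).trans ?_
    apply ENNReal.ofReal_le_ofReal
    have h1 : (0 : ℝ) < ((n : ℝ) + 1) ^ 2 := by positivity
    have h2 : ((n : ℝ) + 1) ^ 2 ≤ (((n + n0 : ℕ) : ℝ) + 1) ^ 2 := by
      have : (n : ℝ) ≤ ((n + n0 : ℕ) : ℝ) := by
        push_cast
        have : (0 : ℝ) ≤ n0 := Nat.cast_nonneg _
        linarith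
      gcongr
    calc C / (((n + n0 : ℕ) : ℝ) + 1) ^ 2 ≤ (max C 0) / (((n + n0 : ℕ) : ℝ) + 1) ^ 2 := by
          gcongr
          exact le_max_left _ _
      _ ≤ (max C 0) / ((n : ℝ) + 1) ^ 2 := by
          have h0 : 0 ≤ max C 0 := le_max_right _ _
          exact div_le_div_of_nonneg_left h0 h1 h2
  have hae := ae_lt_top (Measurable.tsum (fun n => hf (n + n0))) hint
  filter_upwards [hae] with x hx
  have h1 := ENNReal.tendsto_atTop_zero_of_tsum_ne_top hx.ne
  exact (tendsto_add_atTop_iff_nat n0).mp h1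

theorem mn_tendsto : Tendsto mn atTop atTop := by
  refine tendsto_atTop.mpr ?_
  intro m
  filter_upwards [eventually_ge_atTop (m ^ 6)] with n hn
  unfold mn
  refine Nat.le_findGreatest ?_ hn
  refine le_trans ?_ hn
  exact Nat.le_self_pow (by norm_num) m

theorem W_nonneg (m : ℕ) (z : ZMod (3 ^ m)) : 0 ≤ W m z := by
  unfold W
  positivity

theorem Wp_nonneg (m : ℕ) (x : ℤ_[3]) : 0 ≤ Wp m x := W_nonneg _ _

theorem en_nonneg (n l : ℕ) : 0 ≤ en n l := by
  unfold en
  positivity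

theorem Wp_measurable (hM : MeaStmt) (m : ℕ) : Measurable (Wp m) := by
  have h1 := (hM.2 m (fun z => ENNReal.ofReal (W m z))).1
  have h2 := h1.ennreal_toReal
  have h3 : (fun x : ℤ_[3] => (ENNReal.ofReal (W m (PadicInt.toZModPow m x))).toReal) = Wp m := by
    funext x
    exact ENNReal.toReal_ofReal (W_nonneg _ _)
  rw [h3] at h2
  exact h2

/-- the term as a real function. -/
noncomputable def ur (n l : ℕ) (x : ℤ_[3]) : ℝ := (cnt (Mz n l) {l} l (PadicInt.toZModPow l x) : ℝ)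

theorem ur_nonneg (n l : ℕ) (x : ℤ_[3]) : 0 ≤ ur n l x := Nat.cast_nonneg _

theorem ue_measurable (hM : MeaStmt) (n l : ℕ) :
    Measurable (fun x : ℤ_[3] => (cnt (Mz n l) {l} l (PadicInt.toZModPow l x) : ℝ≥0∞)) :=
  (hM.2 l (fun z => (cnt (Mz n l) {l} l z : ℝ≥0∞))).1

theorem ur_measurable (hM : MeaStmt) (n l : ℕ) : Measurable (ur n l) := by
  have h2 := (ue_measurable hM n l).ennreal_toReal
  have h3 : (fun x : ℤ_[3] =>
      ((cnt (Mz n l) {l} l (PadicInt.toZModPow l x) : ℝ≥0∞)).toReal) = ur n l := by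
    funext x
    simp [ur]
  rw [h3] at h2
  exact h2

/-- excess. -/
noncomputable def ex (ε : ℝ) (n : ℕ) (x : ℤ_[3]) : ℝ≥0∞ :=
  (∑ l ∈ Ty n, ENNReal.ofReal
        (|(cnt (Mz n l) {l} l (PadicInt.toZModPow l x) : ℝ) - en n l * Wp (mn n) x|
          - ε * (en n l * Wp (mn n) x))) / ENNReal.ofReal (∑' l, en n l)

theorem ex_measurable (hM : MeaStmt) (ε : ℝ) (n : ℕ) : Measurable (ex ε n) := by
  unfold ex
  refine Measurable.div_const ?_ _
  refine Finset.measurable_sum _ ?_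
  intro l _
  refine ENNReal.measurable_ofReal.comp ?_
  have h1 := ur_measurable hM n l
  have h2 := Wp_measurable hM (mn n)
  have h3 : Measurable (fun x : ℤ_[3] => en n l * Wp (mn n) x) := h2.const_mul _
  have h4 : Measurable (fun x : ℤ_[3] => |ur n l x - en n l * Wp (mn n) x|) := (h1.sub h3).abs
  exact h4.sub (h3.const_mul ε)

open Classical in
/-- tail. -/
noncomputable def tl (n : ℕ) (x : ℤ_[3]) : ℝ≥0∞ :=
  (∑' l, if l ∈ Ty n then (0 : ℝ≥0∞) else (cnt (Mz n l) {l} l (PadicInt.toZModPow l x) : ℝ≥0∞))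
    / ENNReal.ofReal (∑' l, en n l)

theorem tl_measurable (hM : MeaStmt) (n : ℕ) : Measurable (tl n) := by
  unfold tl
  refine Measurable.div_const ?_ _
  refine Measurable.tsum ?_
  intro l
  by_cases h : l ∈ Ty n
  · simp only [h, if_true]
    exact measurable_const
  · simp only [h, if_false]
    exact ue_measurable hM n l

theorem sum_cnt (M l N : ℕ) : ∑ y : ZMod (3 ^ N), cnt M {l} N y = M.choose l := by
  classical
  have h1 : ((Finset.Icc 1 M).powersetCard l).card = M.choose l := by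
    rw [Finset.card_powersetCard]
    simp
  rw [← h1, Finset.card_eq_sum_card_fiberwise (f := fun O => FO N O) (t := Finset.univ)
    (fun x _ => by simp)]
  refine Finset.sum_congr rfl ?_
  intro y _
  unfold cnt
  congr 1
  ext O
  simp only [Finset.mem_filter, Finset.mem_powerset, Set.mem_singleton_iff, Finset.mem_powersetCard]
  tauto

theorem int_u (hM : MeaStmt) (n l : ℕ) :
    ∫⁻ x, (cnt (Mz n l) {l} l (PadicInt.toZModPow l x) : ℝ≥0∞) ∂μ3 = ENNReal.ofReal (en n l) := by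
  have h1 := (hM.2 l (fun z => (cnt (Mz n l) {l} l z : ℝ≥0∞))).2
  rw [h1]
  have h2 := sum_cnt (Mz n l) l l
  have h3 : ∑ y : ZMod (3 ^ l), (cnt (Mz n l) {l} l y : ℝ≥0∞) = ((Mz n l).choose l : ℝ≥0∞) := by
    rw [← h2]
    push_cast
    rfl
  rw [h3]
  unfold en
  rw [ENNReal.ofReal_div_of_pos (by positivity)]
  congr 1
  · rw [ENNReal.ofReal_natCast]
  · rw [ENNReal.ofReal_pow (by norm_num)]
    norm_num

open Classical in
theorem tail_ratio (hT : TybStmt) : ∃ C : ℝ, ∀ n : ℕ, 1 ≤ n →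
    (∑' l, (if l ∈ Ty n then 0 else en n l)) / ∑' l, en n l ≤ C / ((n : ℝ) + 1) ^ 2 := by
  obtain ⟨C, hC⟩ := hT
  refine ⟨14 * max C 0, ?_⟩
  intro n hn
  obtain ⟨hsum, hlow, htail⟩ := hC n hn
  have hS : 0 < ∑' l, en n l := lt_of_lt_of_le (by positivity) hlow
  have hn1 : (1 : ℝ) ≤ (n : ℝ) + 1 := by
    have : (0 : ℝ) ≤ n := Nat.cast_nonneg _
    linarith
  have h2n : (0 : ℝ) < 2 ^ n := by positivity
  have htail' : ∑' l, (if l ∈ Ty n then 0 else en n l) ≤ C * 2 ^ n / ((n : ℝ) + 1) ^ 4 := htail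
  calc (∑' l, (if l ∈ Ty n then 0 else en n l)) / ∑' l, en n l
      ≤ (C * 2 ^ n / ((n : ℝ) + 1) ^ 4) / ∑' l, en n l := by
        gcongr
    _ ≤ (max C 0 * 2 ^ n / ((n : ℝ) + 1) ^ 4) / ∑' l, en n l := by
        gcongr
        exact le_max_left _ _
    _ ≤ (max C 0 * 2 ^ n / ((n : ℝ) + 1) ^ 4) / (2 ^ n / (14 * ((n : ℝ) + 1))) := by
        have h0 : 0 ≤ max C 0 := le_max_right _ _
        exact div_le_div_of_nonneg_left (by positivity) (by positivity) hlow
    _ = 14 * max C 0 / ((n : ℝ) + 1) ^ 3 := by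
        field_simp
    _ ≤ 14 * max C 0 / ((n : ℝ) + 1) ^ 2 := by
        have h0 : 0 ≤ max C 0 := le_max_right _ _
        refine div_le_div_of_nonneg_left (by positivity) (by positivity) ?_
        exact pow_le_pow_right₀ hn1 (by norm_num)

theorem int_tl (hM : MeaStmt) (hT : TybStmt) : ∃ C : ℝ, ∀ n : ℕ, 1 ≤ n →
    ∫⁻ x, tl n x ∂μ3 ≤ ENNReal.ofReal (C / ((n : ℝ) + 1) ^ 2) := by
  classical
  obtain ⟨C', hC'⟩ := tail_ratio hT
  obtain ⟨C, hC⟩ := hT
  refine ⟨C', ?_⟩
  intro n hn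
  obtain ⟨hsum, hlow, htail⟩ := hC n hn
  have hS : 0 < ∑' l, en n l := lt_of_lt_of_le (by positivity) hlow
  unfold tl
  simp only [div_eq_mul_inv]
  rw [lintegral_mul_const'' _ (by
    refine (Measurable.tsum ?_).aemeasurable
    intro l
    by_cases h : l ∈ Ty n
    · simp only [h, if_true]
      exact measurable_const
    · simp only [h, if_false]
      exact ue_measurable hM n l)]
  rw [lintegral_tsum (by
    intro l
    by_cases h : l ∈ Ty n
    · simp only [h, if_true]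
      exact measurable_const.aemeasurable
    · simp only [h, if_false]
      exact (ue_measurable hM n l).aemeasurable)]
  have h1 : ∀ l, ∫⁻ x, (if l ∈ Ty n then (0 : ℝ≥0∞) else
      (cnt (Mz n l) {l} l (PadicInt.toZModPow l x) : ℝ≥0∞)) ∂μ3
      = ENNReal.ofReal (if l ∈ Ty n then 0 else en n l) := by
    intro l
    by_cases h : l ∈ Ty n
    · simp [h]
    · simp only [h, if_false]
      exact int_u hM n l
  simp only [h1]
  have hsum2 : Summable (fun l => if l ∈ Ty n then 0 else en n l) := by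
    refine Summable.of_nonneg_of_le ?_ ?_ hsum
    · intro l
      by_cases h : l ∈ Ty n
      · simp [h]
      · simp only [h, if_false]
        exact en_nonneg n l
    · intro l
      by_cases h : l ∈ Ty n
      · simp only [h, if_true]
        exact en_nonneg n l
      · simp [h]
  have hnn : ∀ l, 0 ≤ (if l ∈ Ty n then 0 else en n l) := by
    intro l
    by_cases h : l ∈ Ty n
    · simp [h]
    · simp only [h, if_false]
      exact en_nonneg n l
  rw [← ENNReal.ofReal_tsum_of_nonneg hnn hsum2, ← ENNReal.ofReal_inv_of_pos hS,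
    ← ENNReal.ofReal_mul (tsum_nonneg hnn)]
  apply ENNReal.ofReal_le_ofReal
  rw [← div_eq_mul_inv]
  exact hC' n hn

theorem det (θ : ℕ → ℝ) (wx : ℝ) (V : ℕ → ℝ) (Wn : ℕ → ℝ) (E : ℕ → ℕ → ℝ)
    (hθ : Tendsto θ atTop (𝓝 1)) (hW : Tendsto Wn atTop (𝓝 wx))
    (hE : ∀ k, Tendsto (E k) atTop (𝓝 0))
    (hV : ∀ k : ℕ, ∀ᶠ n in atTop, |V n - θ n * Wn n| ≤ 1 / ((k : ℝ) + 1) * (θ n * Wn n) + E k n) :
    Tendsto V atTop (𝓝 wx) := by
  have hP : Tendsto (fun n => θ n * Wn n) atTop (𝓝 wx) := by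
    have := hθ.mul hW
    simpa using this
  rw [Metric.tendsto_atTop]
  intro ε hε
  obtain ⟨k, hk⟩ : ∃ k : ℕ, (wx + 1) / ((k : ℝ) + 1) < ε / 3 := by
    obtain ⟨k, hk⟩ := exists_nat_gt ((wx + 1) / (ε / 3))
    refine ⟨k, ?_⟩
    rw [div_lt_iff₀ (by positivity)]
    rw [div_lt_iff₀ (by positivity)] at hk
    nlinarith
  have h1 := (Metric.tendsto_atTop.mp hP) (min (ε / 3) 1) (by positivity)
  obtain ⟨N1, hN1⟩ := h1
  have h2 := (Metric.tendsto_atTop.mp (hE k)) (ε / 3) (by positivity)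
  obtain ⟨N2, hN2⟩ := h2
  obtain ⟨N3, hN3⟩ := eventually_atTop.mp (hV k)
  refine ⟨max N1 (max N2 N3), ?_⟩
  intro n hn
  have a1 := hN1 n (le_trans (le_max_left _ _) hn)
  have a2 := hN2 n (le_trans (le_trans (le_max_left _ _) (le_max_right _ _)) hn)
  have a3 := hN3 n (le_trans (le_trans (le_max_right _ _) (le_max_right _ _)) hn)
  rw [Real.dist_eq] at a1 a2 ⊢
  have b1 : |θ n * Wn n - wx| < ε / 3 := lt_of_lt_of_le a1 (min_le_left _ _)
  have b2 : |θ n * Wn n - wx| < 1 := lt_of_lt_of_le a1 (min_le_right _ _)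
  have b3 : θ n * Wn n ≤ wx + 1 := by
    have := abs_lt.mp b2
    linarith [this.2]
  have b4 : 1 / ((k : ℝ) + 1) * (θ n * Wn n) < ε / 3 := by
    refine lt_of_le_of_lt ?_ hk
    rw [one_div, inv_mul_eq_div]
    gcongr
  have b5 : E k n < ε / 3 := by
    have := abs_lt.mp a2
    linarith [this.2]
  have b6 := abs_le.mp a3
  have b7 := abs_lt.mp b1
  rw [abs_lt]
  constructor <;> linarith [b6.1, b6.2, b7.1, b7.2]

theorem aec (hM : MeaStmt) (hT : TybStmt) (hTal : TalStmt) (hI : IntStmt) : AecStmt := by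
  classical
  intro w hw hW
  obtain ⟨C1, hC1⟩ := int_tl hM hT
  obtain ⟨C2, hC2, hTal⟩ := hTal
  have h1 : ∀ᵐ x ∂μ3, Tendsto (fun n => tl n x) atTop (𝓝 0) :=
    ae_zero tl (tl_measurable hM) C1 1 hC1
  have h2 : ∀ᵐ x ∂μ3, ∀ k : ℕ, Tendsto (fun n => ex (1 / ((k : ℝ) + 1)) n x) atTop (𝓝 0) := by
    rw [ae_all_iff]
    intro k
    obtain ⟨n0, hn0⟩ := hTal (1 / ((k : ℝ) + 1)) (by positivity)
    exact ae_zero (ex (1 / ((k : ℝ) + 1))) (ex_measurable hM _) C2 n0 hn0
  filter_upwards [h1, h2, hW] with x hx1 hx2 hx3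
  obtain ⟨C3, hC3⟩ := tail_ratio hT
  obtain ⟨C, hC⟩ := hT
  set S : ℕ → ℝ := fun n => ∑' l, en n l with hSdef
  have hSpos : ∀ n, 1 ≤ n → 0 < S n := by
    intro n hn
    obtain ⟨hsum, hlow, htail⟩ := hC n hn
    exact lt_of_lt_of_le (by positivity) hlow
  set θ : ℕ → ℝ := fun n => (∑ l ∈ Ty n, en n l) / S n with hθdef
  have hθ1 : ∀ n, 1 ≤ n → θ n = 1 - (∑' l, (if l ∈ Ty n then 0 else en n l)) / S n := by
    intro n hn
    obtain ⟨hsum, hlow, htail⟩ := hC n hn
    have hS := hSpos n hn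
    have h3 : ∑' l, (if l ∈ Ty n then 0 else en n l) = S n - ∑ l ∈ Ty n, en n l := by
      have h4 : ∑ l ∈ Ty n, en n l = ∑' l, (if l ∈ Ty n then en n l else 0) := by
        rw [tsum_eq_sum (s := Ty n)]
        · refine Finset.sum_congr rfl ?_
          intro l hl
          simp [hl]
        · intro l hl
          simp [hl]
      have h5 : Summable (fun l => if l ∈ Ty n then en n l else 0) :=
        summable_of_ne_finset_zero (s := Ty n) (fun l hl => by simp [hl])
      have h6 : (fun l => if l ∈ Ty n then 0 else en n l)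
          = fun l => en n l - (if l ∈ Ty n then en n l else 0) := by
        funext l
        by_cases h : l ∈ Ty n <;> simp [h]
      rw [h6, hsum.tsum_sub h5, h4]
    rw [h3, hθdef]
    field_simp
    ring
  have hθ : Tendsto θ atTop (𝓝 1) := by
    have h3 : Tendsto (fun n : ℕ => C3 / ((n : ℝ) + 1) ^ 2) atTop (𝓝 0) := by
      have h4 : Tendsto (fun n : ℕ => ((n : ℝ) + 1) ^ 2) atTop atTop := by
        refine (tendsto_pow_atTop (by norm_num)).comp ?_
        exact tendsto_atTop_add_const_right _ _ tendsto_natCast_atTop_atTop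
      exact Tendsto.div_atTop tendsto_const_nhds h4
    have h5 : Tendsto (fun n : ℕ => 1 - C3 / ((n : ℝ) + 1) ^ 2) atTop (𝓝 1) := by
      have := (tendsto_const_nhds (x := (1 : ℝ))).sub h3
      simpa using this
    refine tendsto_of_tendsto_of_tendsto_of_le_of_le' h5 tendsto_const_nhds ?_ ?_
    · filter_upwards [eventually_ge_atTop 1] with n hn
      rw [hθ1 n hn]
      have := hC3 n hn
      linarith
    · filter_upwards [eventually_ge_atTop 1] with n hn
      rw [hθ1 n hn]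
      have hS := hSpos n hn
      have hnn : 0 ≤ ∑' l, (if l ∈ Ty n then 0 else en n l) := by
        refine tsum_nonneg ?_
        intro l
        by_cases h : l ∈ Ty n
        · simp [h]
        · simp only [h, if_false]
          exact en_nonneg n l
      have : 0 ≤ (∑' l, (if l ∈ Ty n then 0 else en n l)) / S n := by positivity
      linarith
  set V : ℕ → ℝ := fun n => (∑ l ∈ Ty n, ur n l x) / S n with hVdef
  have hVn : ∀ n, 0 ≤ ∑ l ∈ Ty n, ur n l x := fun n => Finset.sum_nonneg (fun l _ => ur_nonneg n l x)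
  have hVlim : Tendsto V atTop (𝓝 (w x)) := by
    refine det θ (w x) V (fun n => Wp (mn n) x)
      (fun k n => (ex (1 / ((k : ℝ) + 1)) n x).toReal) hθ (hx3.comp mn_tendsto) ?_ ?_
    · intro k
      have h3 := (ENNReal.tendsto_toReal ENNReal.zero_ne_top).comp (hx2 k)
      rw [ENNReal.toReal_zero] at h3
      exact h3
    · intro k
      filter_upwards [eventually_ge_atTop 1] with n hn
      have hS := hSpos n hn
      set ε : ℝ := 1 / ((k : ℝ) + 1) with hε
      have h3 : (ex ε n x).toReal = (∑ l ∈ Ty n, max (|ur n l x - en n l * Wp (mn n) x|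
          - ε * (en n l * Wp (mn n) x)) 0) / S n := by
        unfold ex
        rw [ENNReal.toReal_div, ENNReal.toReal_ofReal hS.le, ENNReal.toReal_sum (by simp)]
        rfl
      have h4 : V n - θ n * Wp (mn n) x
          = (∑ l ∈ Ty n, (ur n l x - en n l * Wp (mn n) x)) / S n := by
        rw [hVdef, hθdef, Finset.sum_sub_distrib, ← Finset.sum_mul]
        ring
      have h5 : ε * (θ n * Wp (mn n) x) = (∑ l ∈ Ty n, ε * (en n l * Wp (mn n) x)) / S n := by
        rw [hθdef, ← Finset.mul_sum, ← Finset.sum_mul]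
        ring
      rw [h3, h4, h5, ← add_div, abs_div, abs_of_pos hS]
      refine div_le_div_of_nonneg_right ?_ hS.le
      refine (Finset.abs_sum_le_sum_abs _ _).trans ?_
      rw [← Finset.sum_add_distrib]
      refine Finset.sum_le_sum ?_
      intro l _
      have := le_max_left (|ur n l x - en n l * Wp (mn n) x| - ε * (en n l * Wp (mn n) x)) 0
      linarith
  have hlim : Tendsto (fun n => ENNReal.ofReal (V n) + tl n x) atTop
      (𝓝 (ENNReal.ofReal (w x))) := by
    have h3 := (ENNReal.tendsto_ofReal hVlim).add hx1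
    simpa using h3
  refine hlim.congr' ?_
  filter_upwards [eventually_ge_atTop 1] with n hn
  have hS := hSpos n hn
  rw [(hI n).2.1 x]
  have h3 : ∑' l : ℕ, (cnt (Mz n l) {l} l (PadicInt.toZModPow l x) : ℝ≥0∞)
      = ∑ l ∈ Ty n, (cnt (Mz n l) {l} l (PadicInt.toZModPow l x) : ℝ≥0∞)
        + ∑' l, (if l ∈ Ty n then (0 : ℝ≥0∞)
            else (cnt (Mz n l) {l} l (PadicInt.toZModPow l x) : ℝ≥0∞)) := by
    have h4 : ∑ l ∈ Ty n, (cnt (Mz n l) {l} l (PadicInt.toZModPow l x) : ℝ≥0∞)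
        = ∑' l, (if l ∈ Ty n then (cnt (Mz n l) {l} l (PadicInt.toZModPow l x) : ℝ≥0∞) else 0) := by
      rw [tsum_eq_sum (s := Ty n)]
      · refine Finset.sum_congr rfl ?_
        intro l hl
        simp [hl]
      · intro l hl
        simp [hl]
    rw [h4, ← ENNReal.tsum_add]
    refine tsum_congr ?_
    intro l
    by_cases h : l ∈ Ty n <;> simp [h]
  rw [h3, ENNReal.add_div]
  congr 1
  rw [hVdef]
  simp only
  rw [ENNReal.ofReal_div_of_pos hS, ENNReal.ofReal_sum_of_nonneg (fun l _ => ur_nonneg n l x)]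
  congr 1
  refine Finset.sum_congr rfl ?_
  intro l _
  unfold ur
  rw [ENNReal.ofReal_natCast]

end Pool.Agent.WIR.H33
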