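import Pool.Agent.WIR.StmtsE

/-! Row GEN of the table wir (helper33). -/

namespace Pool.Agent.WIR.H33

theorem val4 (k : ℕ) : padicValNat 3 (4 ^ (3 ^ k) - 1) = k + 1 := by
  have h := padicValNat.pow_sub_pow (p := 3) (x := 4) (y := 1) (by decide) (by norm_num)
    (by norm_num) (by norm_num) (n := 3 ^ k) (by positivity)
  rw [one_pow] at h
  rw [h]
  simp only [Nat.add_one_sub_one, padicValNat_self, padicValNat.prime_pow]
  ring

theorem gen : GenStmt := by
  intro r u hu
  have hcop : Nat.Coprime 2 (3 ^ (r + 1)) := Nat.Coprime.pow_right _ (by norm_num)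
  set g : (ZMod (3 ^ (r + 1)))ˣ := ZMod.unitOfCoprime 2 hcop with hg
  have hgc : (g : ZMod (3 ^ (r + 1))) = 2 := by
    rw [hg, ZMod.coe_unitOfCoprime]
    norm_num
  have hcard : Fintype.card (ZMod (3 ^ (r + 1)))ˣ = 2 * 3 ^ r := by
    rw [ZMod.card_units_eq_totient, Nat.totient_prime_pow_succ Nat.prime_three]
    ring
  have hord : orderOf g = 2 * 3 ^ r := by
    refine orderOf_eq_of_pow_and_pow_div_prime (by positivity) ?_ ?_
    · rw [← hcard]
      exact pow_card_eq_one
    · intro p hp hpd h1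
      have h2 : p = 2 ∨ p = 3 := by
        rcases (Nat.Prime.dvd_mul hp).mp hpd with h | h
        · left
          exact (Nat.prime_dvd_prime_iff_eq hp Nat.prime_two).mp h
        · right
          exact (Nat.prime_dvd_prime_iff_eq hp Nat.prime_three).mp (hp.dvd_of_dvd_pow h)
      rcases h2 with rfl | rfl
      · have h3 : 2 * 3 ^ r / 2 = 3 ^ r := by omega
        rw [h3] at h1
        have h4 : (2 : ZMod (3 ^ (r + 1))) ^ (3 ^ r) = 1 := by
          have := congrArg (fun z : (ZMod (3 ^ (r + 1)))ˣ => (z : ZMod (3 ^ (r + 1)))) h1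
          simpa [hgc] using this
        have h5 : (((2 ^ (3 ^ r) : ℕ)) : ZMod (3 ^ (r + 1))) = ((1 : ℕ) : ZMod (3 ^ (r + 1))) := by
          push_cast
          exact h4
        rw [ZMod.natCast_eq_natCast_iff] at h5
        have h6 : 2 ^ (3 ^ r) ≡ 1 [MOD 3] := h5.of_dvd (dvd_pow_self 3 (by omega))
        have h7 : 2 ^ (3 ^ r) % 3 = 2 := by
          have hodd : Odd (3 ^ r) := Odd.pow (by decide)
          obtain ⟨k, hk⟩ := hodd
          rw [hk, pow_succ, pow_mul, Nat.mul_mod, Nat.pow_mod]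
          norm_num
        unfold Nat.ModEq at h6
        omega
      · rcases Nat.eq_zero_or_pos r with hr | hr
        · subst hr
          norm_num at hpd
        · obtain ⟨k, rfl⟩ : ∃ k, r = k + 1 := ⟨r - 1, by omega⟩
          have h3 : 2 * 3 ^ (k + 1) / 3 = 2 * 3 ^ k := by
            rw [pow_succ]
            omega
          rw [h3] at h1
          have h4 : (2 : ZMod (3 ^ (k + 1 + 1))) ^ (2 * 3 ^ k) = 1 := by
            have := congrArg (fun z : (ZMod (3 ^ (k + 1 + 1)))ˣ => (z : ZMod (3 ^ (k + 1 + 1)))) h1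
            simpa [hgc] using this
          have h5 : ((4 ^ (3 ^ k) - 1 : ℕ) : ZMod (3 ^ (k + 1 + 1))) = 0 := by
            rw [Nat.cast_sub (Nat.one_le_pow _ _ (by norm_num))]
            push_cast
            rw [pow_mul] at h4
            have h6 : (4 : ZMod (3 ^ (k + 1 + 1))) = 2 ^ 2 := by norm_num
            rw [h6, h4, sub_self]
          rw [ZMod.natCast_eq_zero_iff] at h5
          have h7 : 4 ^ (3 ^ k) - 1 ≠ 0 := by
            have : 4 ≤ 4 ^ (3 ^ k) := by
              calc 4 = 4 ^ 1 := by norm_num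
                _ ≤ 4 ^ (3 ^ k) := Nat.pow_le_pow_right (by norm_num) (Nat.one_le_pow _ _ (by norm_num))
            omega
          have h8 := (padicValNat_dvd_iff_le (p := 3) h7).mp h5
          rw [val4] at h8
          omega
  obtain ⟨v, hv⟩ := hu
  have htop : v⁻¹ ∈ Subgroup.zpowers g := by
    have h1 : Subgroup.zpowers g = ⊤ := by
      apply Subgroup.eq_top_of_card_eq
      rw [Nat.card_zpowers, hord, Nat.card_eq_fintype_card, hcard]
    rw [h1]
    exact Subgroup.mem_top _
  rw [mem_zpowers_iff_mem_range_orderOf, Finset.mem_image] at htop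
  obtain ⟨i, hi, hi2⟩ := htop
  rw [Finset.mem_range, hord] at hi
  have hinv : ((g⁻¹ : (ZMod (3 ^ (r + 1)))ˣ) : ZMod (3 ^ (r + 1))) = (2 : ZMod (3 ^ (r + 1)))⁻¹ := by
    rw [← ZMod.inv_coe_unit, hgc]
  have hpow : g ^ (2 * 3 ^ r) = 1 := by rw [← hord]; exact pow_orderOf_eq_one g
  have key : ∀ j : ℕ, g ^ j = v⁻¹ → u = (2 : ZMod (3 ^ (r + 1)))⁻¹ ^ j := by
    intro j hj
    have h1 : v = (g⁻¹) ^ j := by
      rw [inv_pow, hj, inv_inv]
    rw [← hv, h1, Units.val_pow_eq_pow_val, hinv]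
  rcases Nat.eq_zero_or_pos i with h0 | h0
  · refine ⟨2 * 3 ^ r, ?_, le_refl _, ?_⟩
    · have : 1 ≤ 3 ^ r := Nat.one_le_pow _ _ (by norm_num)
      omega
    · apply key
      rw [hpow, ← hi2, h0, pow_zero]
  · exact ⟨i, h0, hi.le, key i hi2⟩

end Pool.Agent.WIR.H33
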