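import Pool.Agent.WIR.StmtsA

/-! Row TDV of the table wir (helper33). -/

namespace Pool.Agent.WIR.H33

theorem tdv (h : TxmStmt) : TdvStmt := by
  intro N t ξ j l b z hz hm
  unfold mm at *
  refine h.2 N _ z hz ?_
  have h2 : (2 : ZMod (3 ^ N)) * (2 : ZMod (3 ^ N))⁻¹ = 1 := by
    have hc : Nat.Coprime 2 (3 ^ N) := Nat.Coprime.pow_right _ (by norm_num)
    have := ZMod.coe_mul_inv_eq_one 2 hc
    simpa using this
  have h3 : res N t ξ j l = ((2 ^ b * z : ℤ) : ZMod (3 ^ N)) := by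
    rw [← hm, ZMod.coe_valMinAbs]
  have h4 : res N t ξ j (l + b) = res N t ξ j l * (2 : ZMod (3 ^ N))⁻¹ ^ b := by
    unfold res
    rw [pow_add]
    ring
  rw [h4, h3]
  push_cast
  calc (2 : ZMod (3 ^ N)) ^ b * (z : ZMod (3 ^ N)) * (2 : ZMod (3 ^ N))⁻¹ ^ b
      = ((2 : ZMod (3 ^ N)) * (2 : ZMod (3 ^ N))⁻¹) ^ b * (z : ZMod (3 ^ N)) := by
        rw [mul_pow]
        ring
    _ = z := by rw [h2, one_pow, one_mul]

end Pool.Agent.WIR.H33
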